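import Pool.Agent.H50.ODG.Targets

/-!
# Every configuration is the image of a model (board odg, row MDR, MP_397744_co)
-/

set_option autoImplicit false

namespace Pool.Agent.H20.ODG

open Pool.Agent.H57.CP Pool.Agent.H39.TO Pool.Agent.H39.OD Pool.Agent.H50.ODG

/-- polar coordinates in the upper half-plane -/
lemma polar {p q r : ℝ} (hr : 0 < r) (hq : 0 < q) (h : p ^ 2 + q ^ 2 = r ^ 2) :
    ∃ a : ℝ, 0 < a ∧ a < Real.pi ∧ p = r * Real.cos a ∧ q = r * Real.sin a := by
  have h1 : (p / r) ^ 2 + (q / r) ^ 2 = 1 := by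
    field_simp
    linarith
  have hqr : 0 < q / r := div_pos hq hr
  have h2 : -1 ≤ p / r := by nlinarith [sq_nonneg (q / r)]
  have h3 : p / r ≤ 1 := by nlinarith [sq_nonneg (q / r)]
  have hc : Real.cos (Real.arccos (p / r)) = p / r := Real.cos_arccos h2 h3
  have hs : Real.sin (Real.arccos (p / r)) = q / r := by
    rw [Real.sin_arccos]
    have : 1 - (p / r) ^ 2 = (q / r) ^ 2 := by linarith
    rw [this, Real.sqrt_sq hqr.le]
  refine ⟨Real.arccos (p / r), ?_, ?_, ?_, ?_⟩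
  · rcases (Real.arccos_nonneg (p / r)).lt_or_eq with h4 | h4
    · exact h4
    · rw [← h4, Real.sin_zero] at hs
      exact absurd hs hqr.ne
  · rcases (Real.arccos_le_pi (p / r)).lt_or_eq with h4 | h4
    · exact h4
    · rw [h4, Real.sin_pi] at hs
      exact absurd hs hqr.ne
  · rw [hc]; field_simp
  · rw [hs]; field_simp

lemma mk_inj {a : V4} (h : ∀ y, mk a y = 0) : a = 0 := by
  funext i
  fin_cases i
  · have := h ![1, 0, 0, 0]
    simp [mk] at this
    simpa using this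
  · have := h ![0, 1, 0, 0]
    simp [mk] at this
    simpa using this
  · have := h ![0, 0, 1, 0]
    simp [mk] at this
    simpa using this
  · have := h ![0, 0, 0, 1]
    simp [mk] at this
    simpa using this

lemma surj_of_lor {G : V4 →ₗ[ℝ] V4} (hG : Lor G) : Function.Surjective G := by
  refine LinearMap.surjective_of_injective ((injective_iff_map_eq_zero G).2 fun a ha => mk_inj fun y => ?_)
  rw [← hG.1 a y, ha]
  simp [mk]

lemma sn_pos {u : ℚ} (h0 : 0 < u) (h1 : u < 1) : 0 < sn u := by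
  unfold sn
  have h0' : (0 : ℝ) < u := by exact_mod_cast h0
  have h1' : (u : ℝ) < 1 := by exact_mod_cast h1
  exact Real.sin_pos_of_pos_of_lt_pi (mul_pos h0' Real.pi_pos) (by nlinarith [Real.pi_pos])

lemma cn_sn (u : ℚ) : cn u ^ 2 + sn u ^ 2 = 1 := Real.cos_sq_add_sin_sq _

theorem pf_MDR (hFRM : T_FRM) (hCFI : T_CFI) (hLOR : T_LOR) : T_MDR := by
  intro u v w x x' n0 n1 n2 hu0 hu1 hv0 hv1 C
  have hne : x ≠ x' := (hCFI u v w x x' n0 n1 n2 C).2.1
  obtain ⟨g, G, hg, hE, hG, hgo, hgp, hG1⟩ := hFRM x x' n2 C.u2 C.xc C.yc hne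
  set L : ℝ := ch x x' with hL
  set S : ℝ := Real.sqrt (L ^ 2 - 1) with hS
  have hS0 : 0 ≤ S := Real.sqrt_nonneg _
  have hx : x.1 = G o.1 := by rw [hE o, hgo]
  have hx' : x'.1 = G (pt 0 0 S).1 := by rw [hE (pt 0 0 S), hgp]
  have hpt : (pt 0 0 S).1 = ![0, 0, S, Real.sqrt (1 + 0 ^ 2 + 0 ^ 2 + S ^ 2)] := rfl
  have ho : o.1 = ![0, 0, 0, 1] := rfl
  have hLs : L = Real.sqrt (1 + 0 ^ 2 + 0 ^ 2 + S ^ 2) := by
    have h1 : L = mk o.1 (pt 0 0 S).1 := by
      rw [hL]
      show mk x.1 x'.1 = _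
      rw [hx, hx', hG.1]
    rw [h1, hpt, ho]
    simp [mk]
  have hL2 : L ^ 2 = 1 + S ^ 2 := by
    rw [hLs, Real.sq_sqrt (by positivity)]
    ring
  have hL0 : 0 ≤ L := by rw [hLs]; exact Real.sqrt_nonneg _
  have hSp : 0 < S := by
    rcases hS0.lt_or_eq with h | h
    · exact h
    · exfalso
      apply hne
      have h2 : pt 0 0 S = o := by
        apply Subtype.ext
        rw [hpt, ho, ← h]
        simp
      rw [← hgo, ← hgp, h2]
  have hL1 : 1 < L := by nlinarith
  rw [← hLs] at hpt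
  obtain ⟨k0, hk0⟩ := surj_of_lor hG n0
  obtain ⟨k1, hk1⟩ := surj_of_lor hG n1
  -- the equations
  have a1 : k0 3 = 0 := by
    have h := C.xa
    rw [hx, ← hk0, hG.1, ho] at h
    simpa [mk] using h
  have a2 : k0 0 = -cn u := by
    have h := C.e02
    rw [← hG1, ← hk0, hG.1] at h
    simp [mk, m1] at h
    linarith
  have a3 : 0 < k0 2 := by
    have h := C.ya
    rw [hx', ← hk0, hG.1, hpt] at h
    simp [mk, a1] at h
    nlinarith
  have a4 : (k0 1) ^ 2 + (k0 2) ^ 2 = sn u ^ 2 := by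
    have h := C.u0
    rw [← hk0, hG.1] at h
    simp only [mk, a1, a2] at h
    nlinarith [cn_sn u]
  have b1 : k1 0 = -cn v := by
    have h := C.e12
    rw [← hG1, ← hk1, hG.1] at h
    simp [mk, m1] at h
    linarith
  have b2 : L * k1 3 = S * k1 2 := by
    have h := C.yb
    rw [hx', ← hk1, hG.1, hpt] at h
    simp [mk] at h
    linarith
  have b3 : k1 3 < 0 := by
    have h := C.xb
    rw [hx, ← hk1, hG.1, ho] at h
    simpa [mk] using h
  obtain ⟨t, ht⟩ : ∃ t : ℝ, k1 3 = -(S * t) := ⟨-(k1 3 / S), by field_simp⟩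
  have ht0 : 0 < t := by
    by_contra hc
    push Not at hc
    nlinarith
  have b4 : k1 2 = -(L * t) := by
    have h : S * (k1 2 + L * t) = 0 := by rw [mul_add, ← b2, ht]; ring
    rcases mul_eq_zero.1 h with h | h
    · exact absurd h hSp.ne'
    · linarith
  have b5 : (k1 1) ^ 2 + t ^ 2 = sn v ^ 2 := by
    have h := C.u1
    rw [← hk1, hG.1] at h
    simp only [mk, b1, ht, b4] at h
    have e : L ^ 2 * t ^ 2 = t ^ 2 + S ^ 2 * t ^ 2 := by rw [hL2]; ring
    nlinarith [cn_sn v]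
  obtain ⟨α, α0, α1, ca, sa⟩ := polar (sn_pos hu0 hu1) a3 a4
  obtain ⟨β, β0, β1, cb, sb⟩ := polar (sn_pos hv0 hv1) ht0 b5
  have su := sn_pos hu0 hu1
  have sv := sn_pos hv0 hv1
  have pα : 0 < Real.sin α := Real.sin_pos_of_pos_of_lt_pi α0 α1
  have pβ : 0 < Real.sin β := Real.sin_pos_of_pos_of_lt_pi β0 β1
  have e1 : L * Real.sin α * Real.sin β * (sn u * sn v) =
      cn w + cn u * cn v + sn u * sn v * Real.cos α * Real.cos β := by
    have h := C.e01
    rw [← hk0, ← hk1, hG.1] at h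
    simp only [mk, a1, a2, b1, b4, ca, cb, sa] at h
    rw [sb] at h
    linarith
  have hLe : eL u v w α β = L := by
    unfold eL kap
    rw [div_eq_iff (mul_pos pα pβ).ne']
    have h2 : (cn w + cn u * cn v) / (sn u * sn v) =
        L * Real.sin α * Real.sin β - Real.cos α * Real.cos β := by
      rw [div_eq_iff (mul_pos su sv).ne']
      linarith
    rw [h2]
    ring
  have hSe : eS u v w α β = S := by
    unfold eS
    rw [hLe]
  have e2 : na u α = k0 := by
    unfold na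
    rw [← ca, ← sa]
    funext i
    fin_cases i <;> simp [a1, a2]
  have e3 : nb u v w α β = k1 := by
    unfold nb
    rw [hLe, hSe, ← cb, ← sb]
    funext i
    fin_cases i
    · simp [b1]
    · simp
    · simp [b4]; ring
    · simp [ht]; ring
  refine ⟨α, β, g, G, α0, α1, β0, β1, by rw [hLe]; exact hL1, hg, hE, hG, hgo, ?_, ?_, ?_, hG1⟩
  · unfold x1
    rw [hSe]
    exact hgp
  · rw [e2]; exact hk0
  · rw [e3]; exact hk1

end Pool.Agent.H20.ODG
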