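import Pool.Agent.H50.ODG.Targets

/-!
# Two odd denominators (board odg, row ODN, MP_397744_co)
-/

set_option autoImplicit false

namespace Pool.Agent.H20.ODG

open Pool.Agent.H57.CP Pool.Agent.H39.TO Pool.Agent.H39.OD Pool.Agent.H50.ODG

/-- the conclusion of the row -/
def R (u v w : ℚ) : Prop :=
  (Fam0 u v w ∨ Fam1 u v w ∨ Fam2 u v w) ∨ (Fam0 v u w ∨ Fam1 v u w ∨ Fam2 v u w)

lemma R_swap {u v w : ℚ} (h : R u v w) : R v u w := h.symm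

lemma odd_den {k a : ℕ} (ha : 0 < a) (hc : Nat.Coprime k a) (h : Odd ((k : ℚ) / (a : ℚ)).den) : Odd a := by
  have h1 : ((((k : ℤ) : ℚ) / ((a : ℤ) : ℚ)).den : ℤ) = (a : ℤ) :=
    Rat.den_div_eq_of_coprime (by exact_mod_cast ha) (by simpa using hc)
  have h2 : ((k : ℚ) / (a : ℚ)).den = a := by
    have h3 : (((k : ℤ) : ℚ) / ((a : ℤ) : ℚ)) = ((k : ℚ) / (a : ℚ)) := by push_cast; rfl
    rw [h3] at h1
    exact_mod_cast h1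
  rwa [h2] at h

lemma odd_one {a : ℕ} (ha : 2 ≤ a) (h : Odd ((1 : ℚ) / (a : ℚ)).den) : Odd a := by
  have h1 : ((1 : ℚ) / (a : ℚ)) = (((1 : ℕ) : ℚ) / (a : ℚ)) := by norm_num
  rw [h1] at h
  exact odd_den (by omega) (Nat.coprime_one_left a) h

lemma odd_three {a : ℕ} (ha : 2 ≤ a) (h3 : ¬ 3 ∣ a) (h : Odd ((3 : ℚ) / (a : ℚ)).den) : Odd a := by
  have h1 : ((3 : ℚ) / (a : ℚ)) = (((3 : ℕ) : ℚ) / (a : ℚ)) := by norm_num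
  rw [h1] at h
  exact odd_den (by omega) ((Nat.Prime.coprime_iff_not_dvd Nat.prime_three).2 h3) h

lemma not_half (h : Odd ((1 : ℚ) / 2).den) : False := by
  have h1 : Odd (2 : ℕ) := odd_one (a := 2) le_rfl (by exact_mod_cast h)
  revert h1; decide

lemma three_le {a : ℕ} (ha : 2 ≤ a) (h : Odd a) : 3 ≤ a := by
  rcases h with ⟨k, rfl⟩; omega

lemma R_one {a b c : ℕ} (ha : 2 ≤ a) (hb : 2 ≤ b) (hc : 2 ≤ c) (oa : Odd a) (ob : Odd b) :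
    R (1 / a) (1 / b) (1 / c) := by
  have a3 := three_le ha oa
  have b3 := three_le hb ob
  rcases lt_trichotomy a b with h | h | h
  · exact Or.inl (Or.inl (Or.inl ⟨a, b, c, oa, ob, a3, h, hc, rfl, rfl, rfl⟩))
  · subst h
    exact Or.inl (Or.inr (Or.inr (Or.inl ⟨a, c, oa, a3, hc, rfl, rfl, rfl⟩)))
  · exact Or.inr (Or.inl (Or.inl ⟨b, a, c, ob, oa, b3, h, hc, rfl, rfl, rfl⟩))

lemma R_two {p c : ℕ} (hp : 3 ≤ p) (hc : 2 ≤ c) (op : Odd p) (oc : Odd c) :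
    R (2 / p) (1 / c) (1 / c) :=
  Or.inl (Or.inl (Or.inr (Or.inl ⟨p, c, op, oc, hp, three_le hc oc, rfl, rfl, rfl⟩)))

lemma R_two' {p c : ℕ} (hp : 3 ≤ p) (hc : 2 ≤ c) (op : Odd p) (oc : Odd c) :
    R (1 / c) (1 / c) (2 / p) :=
  Or.inl (Or.inr (Or.inr (Or.inr (Or.inl ⟨c, p, oc, op, three_le hc oc, hp, rfl, rfl, rfl⟩))))

lemma R_three {p : ℕ} (hp : 7 ≤ p) (op : Odd p) : R (2 / p) (1 / p) (1 / 2) :=
  Or.inl (Or.inr (Or.inl (Or.inl ⟨p, op, hp, Or.inl ⟨rfl, rfl, rfl⟩⟩)))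

lemma R_five {p : ℕ} (hp : 7 ≤ p) (op : Odd p) : R (4 / p) (1 / p) (1 / p) :=
  Or.inl (Or.inr (Or.inl (Or.inl ⟨p, op, hp, Or.inr (Or.inl ⟨rfl, rfl, rfl⟩)⟩)))

lemma R_five' {p : ℕ} (hp : 7 ≤ p) (op : Odd p) : R (1 / p) (1 / p) (4 / p) :=
  Or.inl (Or.inr (Or.inr (Or.inr (Or.inr ⟨p, op, hp, Or.inl ⟨rfl, rfl, rfl⟩⟩))))

lemma R_six {p : ℕ} (hp : 7 ≤ p) (op : Odd p) : R (2 / p) (2 / p) (2 / p) :=
  Or.inl (Or.inr (Or.inr (Or.inr (Or.inr ⟨p, op, hp, Or.inr ⟨rfl, rfl, rfl⟩⟩))))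

lemma R_four {p : ℕ} (hp : 7 ≤ p) (op : Odd p) (h3 : ¬ 3 ∣ p) : R (3 / p) (1 / p) (1 / 3) :=
  Or.inl (Or.inr (Or.inl (Or.inl ⟨p, op, hp, Or.inr (Or.inr ⟨h3, rfl, rfl, rfl⟩)⟩)))

lemma R_four' {p : ℕ} (hp : 7 ≤ p) (op : Odd p) (h3 : ¬ 3 ∣ p) : R (3 / p) (1 / 3) (1 / p) :=
  Or.inl (Or.inl (Or.inr (Or.inr (Or.inl ⟨p, op, h3, hp, Or.inl ⟨rfl, rfl, rfl⟩⟩))))

lemma R_four'' {p : ℕ} (hp : 7 ≤ p) (op : Odd p) (h3 : ¬ 3 ∣ p) : R (1 / 3) (1 / p) (3 / p) :=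
  Or.inl (Or.inl (Or.inr (Or.inr (Or.inl ⟨p, op, h3, hp, Or.inr ⟨rfl, rfl, rfl⟩⟩))))

lemma R_seven : R (2 / 7) (1 / 7) (1 / 3) := Or.inl (Or.inr (Or.inl (Or.inr ⟨rfl, rfl, rfl⟩)))

lemma R_seven' : R (2 / 7) (1 / 3) (1 / 7) :=
  Or.inl (Or.inl (Or.inr (Or.inr (Or.inr (Or.inl ⟨rfl, rfl, rfl⟩)))))

lemma R_seven'' : R (1 / 3) (1 / 7) (2 / 7) :=
  Or.inl (Or.inl (Or.inr (Or.inr (Or.inr (Or.inr ⟨rfl, rfl, rfl⟩)))))

/-- `w` in the third place -/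
lemma L3 {u v w : ℚ} (h : KnO u v w) (hu : Odd u.den) (hv : Odd v.den) : R u v w := by
  rcases h with ⟨a, b, c, ha, hb, hc, rfl, rfl, rfl⟩ | ⟨p, c, op, hp, hc, rfl, rfl, rfl⟩ |
    ⟨p, op, hp, rfl, rfl, rfl⟩ | ⟨p, h3, hp, rfl, rfl, rfl⟩ | ⟨p, op, hp, rfl, rfl, rfl⟩ |
    ⟨p, op, hp, rfl, rfl, rfl⟩ | ⟨rfl, rfl, rfl⟩
  · exact R_one ha hb hc (odd_one ha hu) (odd_one hb hv)
  · exact R_two hp hc op (odd_one hc hv)
  · exact (not_half hu).elim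
  · exact R_four'' hp (odd_one (by omega) hv) h3
  · exact R_five hp op
  · exact R_six hp op
  · exact R_seven''

/-- `w` in the second place -/
lemma L2 {u v w : ℚ} (h : KnO u w v) (hu : Odd u.den) (hv : Odd v.den) : R u v w := by
  rcases h with ⟨a, b, c, ha, hb, hc, rfl, rfl, rfl⟩ | ⟨p, c, op, hp, hc, rfl, rfl, rfl⟩ |
    ⟨p, op, hp, rfl, rfl, rfl⟩ | ⟨p, h3, hp, rfl, rfl, rfl⟩ | ⟨p, op, hp, rfl, rfl, rfl⟩ |
    ⟨p, op, hp, rfl, rfl, rfl⟩ | ⟨rfl, rfl, rfl⟩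
  · exact R_one ha hc hb (odd_one ha hu) (odd_one hc hv)
  · exact R_two hp hc op (odd_one hc hv)
  · exact (not_half hu).elim
  · exact R_swap (R_four' hp (odd_three (by omega) h3 hv) h3)
  · exact R_five hp op
  · exact R_six hp op
  · exact R_swap R_seven'

/-- `w` in the first place -/
lemma L1 {u v w : ℚ} (h : KnO w u v) (hu : Odd u.den) (hv : Odd v.den) : R u v w := by
  rcases h with ⟨a, b, c, ha, hb, hc, rfl, rfl, rfl⟩ | ⟨p, c, op, hp, hc, rfl, rfl, rfl⟩ |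
    ⟨p, op, hp, rfl, rfl, rfl⟩ | ⟨p, h3, hp, rfl, rfl, rfl⟩ | ⟨p, op, hp, rfl, rfl, rfl⟩ |
    ⟨p, op, hp, rfl, rfl, rfl⟩ | ⟨rfl, rfl, rfl⟩
  · exact R_one hb hc ha (odd_one hb hu) (odd_one hc hv)
  · exact R_two' hp hc op (odd_one hc hv)
  · exact R_swap (R_three hp op)
  · exact R_swap (R_four hp (odd_one (by omega) hu) h3)
  · exact R_five' hp op
  · exact R_six hp op
  · exact R_swap R_seven

theorem pf_ODN : T_ODN := by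
  intro u v w h hu hv
  show R u v w
  rcases h.2 with h | h | h | h | h | h
  · exact L3 h hu hv
  · exact L2 h hu hv
  · exact R_swap (L3 h hv hu)
  · exact R_swap (L2 h hv hu)
  · exact L1 h hu hv
  · exact R_swap (L1 h hv hu)

end Pool.Agent.H20.ODG
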